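import Mathlib
import Pool.Agent.U892.PD.Stm

/-!
Project PD, package TAN: the point of tangency.
-/

set_option autoImplicit false

open Filter Topology Set
open scoped ContDiff

namespace Pool.Agent.U296.PD

open Pool.Agent.U892.PD

theorem t_TAN : S_TAN := by
  intro G hG h0 h2
  set e : (ℝ × ℝ) × ℝ → ℝ × ℝ := fun v => (v.2, v.1.1 + v.1.2 * v.2) with he
  set H : (ℝ × ℝ) × ℝ → ℝ := fun v => fderiv ℝ G (e v) (1, v.1.2) with hH
  set u : (ℝ × ℝ) × ℝ := ((0, 0), 0) with hu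
  have heu : e u = (0, 0) := by
    simp [he, hu]
  have hesm : ContDiff ℝ 20 e := by
    rw [he]
    fun_prop
  have hdG : ContDiffAt ℝ 20 (fderiv ℝ G) (0, 0) := hG.fderiv_right (by norm_num)
  have hHsm : ContDiffAt ℝ 20 H u := by
    have h3 : ContDiffAt ℝ 20 (fun v => fderiv ℝ G (e v)) u := by
      apply ContDiffAt.comp u _ hesm.contDiffAt
      rw [heu]
      exact hdG
    have h4 : ContDiffAt ℝ 20 (fun v : (ℝ × ℝ) × ℝ => ((1 : ℝ), v.1.2)) u := by
      fun_prop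
    exact h3.clm_apply h4
  have hHu : H u = 0 := by
    change fderiv ℝ G (e u) (1, u.1.2) = 0
    rw [heu]
    exact h0
  -- the derivative with respect to `x`
  have hgd : ∀ᶠ s in 𝓝 (0 : ℝ), deriv (fun s : ℝ => G (s, 0)) s = H ((0, 0), s) := by
    have h5 : ∀ᶠ p in 𝓝 ((0, 0) : ℝ × ℝ), DifferentiableAt ℝ G p := by
      have h6 := hG.eventually (by simp)
      filter_upwards [h6] with p hp
      exact hp.differentiableAt (by norm_num)
    have h7 : Tendsto (fun s : ℝ => ((s, 0) : ℝ × ℝ)) (𝓝 0) (𝓝 (0, 0)) :=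
      (Continuous.prodMk continuous_id continuous_const).tendsto' _ _ rfl
    filter_upwards [h7.eventually h5] with s hs
    have h8 : HasDerivAt (fun s : ℝ => ((s, 0) : ℝ × ℝ)) (1, 0) s :=
      (hasDerivAt_id s).prodMk (hasDerivAt_const s 0)
    have h9 := hs.hasFDerivAt.comp_hasDerivAt s h8
    change deriv (fun s : ℝ => G (s, 0)) s = fderiv ℝ G (e ((0, 0), s)) (1, 0)
    have h10 : e ((0, 0), s) = (s, 0) := by simp [he]
    rw [h10]
    exact h9.deriv
  have hc : deriv (fun s : ℝ => H ((0, 0), s)) 0 ≠ 0 := by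
    have h5 : iteratedDeriv 2 (fun s : ℝ => G (s, 0)) 0 = deriv (fun s : ℝ => H ((0, 0), s)) 0 := by
      rw [iteratedDeriv_succ, iteratedDeriv_one]
      exact Filter.EventuallyEq.deriv_eq hgd
    rw [← h5]
    exact h2
  have hD : (fderiv ℝ H u ∘L .inr ℝ (ℝ × ℝ) ℝ) 1 = deriv (fun s : ℝ => H ((0, 0), s)) 0 := by
    have h8 : HasDerivAt (fun s : ℝ => (((0, 0), s) : (ℝ × ℝ) × ℝ)) ((0, 0), 1) 0 :=
      (hasDerivAt_const (0 : ℝ) ((0, 0) : ℝ × ℝ)).prodMk (hasDerivAt_id (0 : ℝ))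
    have h9 : HasFDerivAt H (fderiv ℝ H u) (((0, 0), (0 : ℝ)) : (ℝ × ℝ) × ℝ) :=
      (hHsm.differentiableAt (by norm_num)).hasFDerivAt
    have h10 := h9.comp_hasDerivAt (0 : ℝ) h8
    rw [show (fun s : ℝ => H ((0, 0), s)) = H ∘ (fun s : ℝ => (((0, 0), s) : (ℝ × ℝ) × ℝ)) from rfl,
      h10.deriv]
    rfl
  have hinv : (fderiv ℝ H u ∘L .inr ℝ (ℝ × ℝ) ℝ).IsInvertible := by
    refine ⟨ContinuousLinearEquiv.unitsEquivAut ℝ (Units.mk0 _ hc), ?_⟩
    ext
    rw [hD]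
    simp
  have hn : (20 : ℕ∞ω) ≠ 0 := by norm_num
  refine ⟨hHsm.implicitFunction hn hinv, hHsm.contDiffAt_implicitFunction hn hinv,
    hHsm.implicitFunction_apply_self hn hinv, ?_⟩
  filter_upwards [hHsm.eventually_apply_implicitFunction hn hinv] with z hz
  rw [hHu] at hz
  exact hz

end Pool.Agent.U296.PD
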